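import Mathlib

set_option autoImplicit false

namespace Pool.Agent.Results.MP_2348bc_co.Example

/-- `RGFfrom M w`: each letter is positive and at most one more than the largest letter so far,
the largest letter before `w` being `M`. -/
def RGFfrom : ℕ → List ℕ → Prop
  | _, [] => True
  | M, x :: l => 1 ≤ x ∧ x ≤ 1 + M ∧ RGFfrom (max M x) l

/-- Restricted growth functions. -/
def IsRGF (w : List ℕ) : Prop := RGFfrom 0 w

/-- `u` is in the same relative order as `v`. -/
def Same (v u : List ℕ) : Prop :=
  u.length = v.length ∧ ∀ a < v.length, ∀ b < v.length,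
    (u.getD a 0 < u.getD b 0 ↔ v.getD a 0 < v.getD b 0) ∧
      (u.getD a 0 = u.getD b 0 ↔ v.getD a 0 = v.getD b 0)

instance (v u : List ℕ) : Decidable (Same v u) := by unfold Same; infer_instance

/-- The number of copies of `v` in `w`; `sublistsLen` lists one subword per set of positions. -/
def copies (v w : List ℕ) : ℕ := (w.sublistsLen v.length).countP (fun u => decide (Same v u))

/-- RGFs of length `n` with exactly `k` copies of `v`. -/
def R (n k : ℕ) (v : List ℕ) : Set (List ℕ) := {w | w.length = n ∧ IsRGF w ∧ copies v w = k}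

lemma fin_aux (n : ℕ) : ∀ M, {w : List ℕ | w.length = n ∧ RGFfrom M w}.Finite := by
  induction n with
  | zero =>
    intro M
    refine (Set.finite_singleton []).subset ?_
    rintro w ⟨h, -⟩
    simpa using h
  | succ n ih =>
    intro M
    refine ((Set.finite_Icc 1 (1 + M)).biUnion
      (fun x _ => (ih (max M x)).image (fun l => x :: l))).subset ?_
    rintro (_ | ⟨x, l⟩) ⟨h1, h2⟩
    · simp at h1
    · simp only [Set.mem_iUnion]
      exact ⟨x, ⟨h2.1, h2.2.1⟩, l, ⟨by simpa using h1, h2.2.2⟩, rfl⟩

lemma R_fin (n k : ℕ) (v : List ℕ) : (R n k v).Finite :=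
  (fin_aux n 0).subset (fun _ h => ⟨h.1, h.2.1⟩)

/-! ### Subsequence counts in masks -/

def sc : List Bool → List Bool → ℕ
  | [], _ => 1
  | _ :: _, [] => 0
  | a :: p, b :: l => sc (a :: p) l + if a = b then sc p l else 0

lemma sc_nil (l : List Bool) : sc [] l = 1 := by cases l <;> rfl

lemma sc_snoc (l : List Bool) : ∀ (p : List Bool) (a b : Bool),
    sc (p ++ [a]) (l ++ [b]) = sc (p ++ [a]) l + if a = b then sc p l else 0 := by
  induction l with
  | nil =>
    intro p a b
    rcases p with _ | ⟨c, p⟩
    · simp [sc]
    · rcases p with _ | ⟨d, p⟩ <;> simp [sc]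
  | cons c l ih =>
    intro p a b
    rcases p with _ | ⟨d, p⟩
    · have := ih [] a b
      simp only [List.nil_append, sc_nil] at this
      simp only [List.nil_append, List.cons_append, sc, sc_nil, this]
      omega
    · have h1 := ih (d :: p) a b
      have h2 := ih p a b
      simp only [List.cons_append] at h1
      simp only [List.cons_append, sc, h1, h2]
      split_ifs <;> omega

lemma sc_rev (l : List Bool) : ∀ p : List Bool, sc p.reverse l.reverse = sc p l := by
  induction l with
  | nil =>
    intro p
    rcases p with _ | ⟨a, p⟩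
    · rfl
    · rw [List.reverse_cons]
      rcases p.reverse with _ | ⟨c, q⟩ <;> rfl
  | cons b l ih =>
    intro p
    rcases p with _ | ⟨a, p⟩
    · simp [sc_nil]
    · rw [List.reverse_cons, List.reverse_cons, sc_snoc, ← List.reverse_cons, ih, ih, sc]

lemma sc_false (p l : List Bool) (t : ℕ) :
    sc (p ++ [true]) (l ++ List.replicate t false) = sc (p ++ [true]) l := by
  induction t with
  | zero => simp
  | succ t ih =>
    rw [List.replicate_succ', ← List.append_assoc, sc_snoc, ih]
    simp

/-- Reverse a mask up to its last `true`. -/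
def rho (m : List Bool) : List Bool :=
  m.reverse.dropWhile (fun b => !b) ++ m.reverse.takeWhile (fun b => !b)

lemma dw (t : ℕ) (q : List Bool) :
    (List.replicate t false ++ true :: q).dropWhile (fun b => !b) = true :: q ∧
    (List.replicate t false ++ true :: q).takeWhile (fun b => !b) = List.replicate t false := by
  induction t with
  | zero => simp
  | succ t ih => simp [List.replicate_succ, ih.1, ih.2]

lemma rho_eq (q : List Bool) (t : ℕ) :
    rho (q ++ [true] ++ List.replicate t false) = true :: q.reverse ++ List.replicate t false := by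
  have : (q ++ [true] ++ List.replicate t false).reverse =
      List.replicate t false ++ true :: q.reverse := by simp
  rw [rho, this, (dw t _).1, (dw t _).2]

lemma split (m : List Bool) : ∃ q t, true :: m = q ++ [true] ++ List.replicate t false := by
  induction m using List.reverseRecOn with
  | nil => exact ⟨[], 0, rfl⟩
  | append_singleton l a ih =>
    cases a
    · obtain ⟨q, t, h⟩ := ih
      refine ⟨q, t + 1, ?_⟩
      rw [← List.cons_append, h, List.replicate_succ', List.append_assoc]
    · exact ⟨true :: l, 0, by simp⟩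

lemma rho_spec (m : List Bool) : ∃ m', rho (true :: m) = true :: m' ∧
    rho (true :: m') = true :: m ∧ m'.length = m.length ∧ m'.count false = m.count false ∧
    sc [true, true, false, true] (true :: m') = sc [true, false, true, true] (true :: m) ∧
    sc [true, false, true, true] (true :: m') = sc [true, true, false, true] (true :: m) := by
  obtain ⟨q, t, h⟩ := split m
  have hl := congrArg List.length h
  have hc := congrArg (List.count false) h
  refine ⟨q.reverse ++ List.replicate t false, by rw [h, rho_eq]; rfl, ?_, ?_, ?_, ?_, ?_⟩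
  · rcases q with _ | ⟨a, q⟩
    · rw [h]; simpa using rho_eq [] t
    · obtain rfl : true = a := by simpa using (List.cons.inj h).1
      have := rho_eq (true :: q.reverse) t
      rw [h]
      simpa using this
  · simp at hl ⊢; omega
  · simp at hc ⊢; omega
  · have h1 := sc_false [true, true, false] (true :: q.reverse) t
    have h2 := sc_false [true, false, true] (q ++ [true]) t
    have h3 := sc_rev (q ++ [true]) [true, false, true, true]
    rw [h]
    simp only [List.cons_append, List.nil_append, List.reverse_append, List.reverse_cons,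
      List.reverse_nil] at h1 h2 h3 ⊢
    rw [h1, h2, h3]
  · have h1 := sc_false [true, false, true] (true :: q.reverse) t
    have h2 := sc_false [true, true, false] (q ++ [true]) t
    have h3 := sc_rev (q ++ [true]) [true, true, false, true]
    rw [h]
    simp only [List.cons_append, List.nil_append, List.reverse_append, List.reverse_cons,
      List.reverse_nil] at h1 h2 h3 ⊢
    rw [h1, h2, h3]

/-! ### Splitting a word at its letter `1` -/

def mask (w : List ℕ) : List Bool := w.map (fun x => decide (x = 1))

def rest : List ℕ → List ℕ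
  | [] => []
  | x :: l => if x = 1 then rest l else (x - 1) :: rest l

def merge : List Bool → List ℕ → List ℕ
  | [], _ => []
  | true :: m, r => 1 :: merge m r
  | false :: m, x :: r => (x + 1) :: merge m r
  | false :: m, [] => merge m []

def Pos (w : List ℕ) : Prop := ∀ x ∈ w, 1 ≤ x

lemma rgf_pos (w : List ℕ) : ∀ M, RGFfrom M w → Pos w := by
  induction w with
  | nil => intro M _ x hx; simp at hx
  | cons y l ih =>
    intro M h x hx
    rcases List.mem_cons.mp hx with rfl | hx
    · exact h.1
    · exact ih _ h.2.2 x hx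

lemma merge_mask (w : List ℕ) (h : Pos w) : merge (mask w) (rest w) = w := by
  induction w with
  | nil => rfl
  | cons x l ih =>
    have h1 := h x (by simp)
    have h2 := ih (fun y hy => h y (by simp [hy]))
    unfold mask at h2 ⊢
    by_cases hx : x = 1
    · simp [rest, hx, merge, h2]
    · simp only [rest, hx, List.map_cons, decide_false, if_false, merge, h2]
      congr 1; omega

lemma rest_len (w : List ℕ) : (rest w).length = (mask w).count false := by
  induction w with
  | nil => rfl
  | cons x l ih =>
    unfold mask at ih ⊢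
    by_cases hx : x = 1 <;> simp [rest, hx, ih]

lemma rest_rgf (w : List ℕ) : ∀ M, RGFfrom (M + 1) w → RGFfrom M (rest w) := by
  induction w with
  | nil => intro M _; trivial
  | cons x l ih =>
    rintro M ⟨h1, h2, h3⟩
    by_cases hx : x = 1
    · rw [rest, if_pos hx]
      apply ih
      rwa [show max (M + 1) x = M + 1 by omega] at h3
    · rw [rest, if_neg hx]
      refine ⟨by omega, by omega, ih _ ?_⟩
      rwa [show max (M + 1) x = max M (x - 1) + 1 by omega] at h3

lemma merge_spec (m : List Bool) : ∀ r M, RGFfrom M r → r.length = m.count false →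
    mask (merge m r) = m ∧ rest (merge m r) = r ∧ RGFfrom (M + 1) (merge m r) := by
  induction m with
  | nil =>
    intro r M _ h
    obtain rfl : r = [] := by simpa using h
    exact ⟨rfl, rfl, trivial⟩
  | cons b m ih =>
    intro r M h1 h2
    cases b
    · rcases r with _ | ⟨x, r⟩
      · simp at h2
      · obtain ⟨a1, a2, a3⟩ := h1
        obtain ⟨b1, b2, b3⟩ := ih r _ a3 (by simpa using h2)
        have hx : x + 1 ≠ 1 := by omega
        unfold mask at b1 ⊢
        refine ⟨by simp only [merge, List.map_cons, b1]; simp; omega,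
          by simp only [merge, rest, if_neg hx, b2]; simp, by omega, by omega, ?_⟩
        rwa [show max (M + 1) (x + 1) = max M x + 1 by omega]
    · obtain ⟨b1, b2, b3⟩ := ih r M h1 (by simpa using h2)
      unfold mask at b1 ⊢
      refine ⟨by simp only [merge, List.map_cons, b1]; simp, by simp [merge, rest, b2],
        le_rfl, by omega, ?_⟩
      rwa [show max (M + 1) 1 = M + 1 by omega]

lemma count_mask (w : List ℕ) : ∀ p : List Bool,
    (w.sublistsLen p.length).countP (fun u => decide (mask u = p)) = sc p (mask w) := by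
  induction w with
  | nil => intro p; rcases p with _ | ⟨a, p⟩ <;> simp [sc, mask]
  | cons x l ih =>
    intro p
    rcases p with _ | ⟨a, p⟩
    · simp [sc_nil, mask]
    · have h1 := ih (a :: p)
      have h2 := ih p
      rw [List.length_cons] at h1
      rw [List.length_cons, List.sublistsLen_succ_cons, List.countP_append, h1, List.countP_map]
      show _ = sc (a :: p) (decide (x = 1) :: mask l)
      rw [sc]
      congr 1
      split_ifs with h
      · rw [← h2]
        congr 1
        funext u
        simp [mask, h]
      · rw [List.countP_eq_zero]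
        intro u _
        simp only [mask, Function.comp, List.map_cons, decide_eq_true_eq, List.cons.injEq, not_and]
        intro h'
        exact absurd h'.symm h

lemma count_rest (w : List ℕ) : ∀ (k : ℕ) (Q : List ℕ → Bool),
    (w.sublistsLen k).countP (fun u => decide (1 ∉ u) && Q (u.map (· - 1))) =
      ((rest w).sublistsLen k).countP Q := by
  induction w with
  | nil => intro k Q; rcases k with _ | k <;> simp [rest]
  | cons x l ih =>
    intro k Q
    rcases k with _ | k
    · simp
    · rw [List.sublistsLen_succ_cons, List.countP_append, ih, List.countP_map]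
      by_cases hx : x = 1
      · rw [rest, if_pos hx, Nat.add_eq_left, List.countP_eq_zero]
        intro u _
        simp [hx]
      · rw [rest, if_neg hx, List.sublistsLen_succ_cons, List.countP_append, List.countP_map,
          ← ih k (Q ∘ List.cons (x - 1))]
        congr 2
        funext u
        simp [Ne.symm hx]

lemma countP_split {α : Type} (L : List α) (P Q S : α → Bool)
    (h : ∀ u ∈ L, (if P u then 1 else 0) = (if Q u then 1 else 0) + (if S u then 1 else 0)) :
    L.countP P = L.countP Q + L.countP S := by
  induction L with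
  | nil => rfl
  | cons a L ih =>
    have h1 := h a (by simp)
    have h2 := ih (fun u hu => h u (by simp [hu]))
    simp only [List.countP_cons]
    omega

lemma same1 (a b c d : ℕ) : Same [1, 1, 2, 1] [a, b, c, d] ↔ (a = b ∧ a = d ∧ a < c) := by
  constructor
  · rintro ⟨-, h⟩
    exact ⟨(h 0 (by simp) 1 (by simp)).2.mpr rfl, (h 0 (by simp) 3 (by simp)).2.mpr rfl,
      (h 0 (by simp) 2 (by simp)).1.mpr (by simp)⟩
  · rintro ⟨rfl, rfl, h⟩
    refine ⟨rfl, fun i hi j hj => ?_⟩
    simp only [List.length_cons, List.length_nil] at hi hj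
    interval_cases i <;> interval_cases j <;> simp <;> omega

lemma same2 (a b c d : ℕ) : Same [1, 2, 1, 1] [a, b, c, d] ↔ (a = c ∧ a = d ∧ a < b) := by
  constructor
  · rintro ⟨-, h⟩
    exact ⟨(h 0 (by simp) 2 (by simp)).2.mpr rfl, (h 0 (by simp) 3 (by simp)).2.mpr rfl,
      (h 0 (by simp) 1 (by simp)).1.mpr (by simp)⟩
  · rintro ⟨rfl, rfl, h⟩
    refine ⟨rfl, fun i hi j hj => ?_⟩
    simp only [List.length_cons, List.length_nil] at hi hj
    interval_cases i <;> interval_cases j <;> simp <;> omega

lemma four (w : List ℕ) (h : Pos w) (u : List ℕ) (hu : u ∈ w.sublistsLen 4) :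
    ∃ a b c d, u = [a, b, c, d] ∧ 1 ≤ a ∧ 1 ≤ b ∧ 1 ≤ c ∧ 1 ≤ d := by
  obtain ⟨h1, h2⟩ := List.mem_sublistsLen.mp hu
  have h3 : ∀ x ∈ u, 1 ≤ x := fun x hx => h x (h1.subset hx)
  rcases u with _ | ⟨a, _ | ⟨b, _ | ⟨c, _ | ⟨d, _ | ⟨e, u⟩⟩⟩⟩⟩ <;> simp at h2
  exact ⟨a, b, c, d, rfl, h3 a (by simp), h3 b (by simp), h3 c (by simp), h3 d (by simp)⟩

lemma copies1 (w : List ℕ) (h : Pos w) : copies [1, 1, 2, 1] w =
    sc [true, true, false, true] (mask w) + copies [1, 1, 2, 1] (rest w) := by
  rw [← count_mask, copies, copies, ← count_rest]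
  apply countP_split
  intro u hu
  obtain ⟨a, b, c, d, rfl, h1, h2, h3, h4⟩ := four w h u hu
  simp only [List.map_cons, List.map_nil, same1, mask, List.cons.injEq, List.mem_cons,
    List.not_mem_nil, Bool.and_eq_true, decide_eq_true_eq, decide_eq_false_iff_not, and_true,
    or_false]
  split_ifs <;> omega

lemma copies2 (w : List ℕ) (h : Pos w) : copies [1, 2, 1, 1] w =
    sc [true, false, true, true] (mask w) + copies [1, 2, 1, 1] (rest w) := by
  rw [← count_mask, copies, copies, ← count_rest]
  apply countP_split
  intro u hu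
  obtain ⟨a, b, c, d, rfl, h1, h2, h3, h4⟩ := four w h u hu
  simp only [List.map_cons, List.map_nil, same2, mask, List.cons.injEq, List.mem_cons,
    List.not_mem_nil, Bool.and_eq_true, decide_eq_true_eq, decide_eq_false_iff_not, and_true,
    or_false]
  split_ifs <;> omega

def phi : ℕ → List ℕ → List ℕ
  | 0, w => w
  | f + 1, w => merge (rho (mask w)) (phi f (rest w))

lemma phi_spec (f : ℕ) : ∀ w, IsRGF w → w.length ≤ f →
    IsRGF (phi f w) ∧ (phi f w).length = w.length ∧ phi f (phi f w) = w ∧
      copies [1, 1, 2, 1] (phi f w) = copies [1, 2, 1, 1] w ∧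
      copies [1, 2, 1, 1] (phi f w) = copies [1, 1, 2, 1] w := by
  induction f with
  | zero =>
    intro w h hl
    obtain rfl : w = [] := by simpa using hl
    exact ⟨trivial, rfl, rfl, rfl, rfl⟩
  | succ f ih =>
    intro w h hl
    rcases w with _ | ⟨x, l⟩
    · exact ⟨trivial, rfl, rfl, rfl, rfl⟩
    · have hp := rgf_pos _ _ h
      obtain ⟨a1, a2, a3⟩ := h
      obtain rfl : x = 1 := by omega
      have hr : IsRGF (rest l) := rest_rgf l 0 a3
      have hrl : (rest l).length ≤ l.length := by
        rw [rest_len]
        exact List.count_le_length.trans (by simp [mask])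
      obtain ⟨b1, b2, b3, b4, b5⟩ := ih (rest l) hr (by simp at hl; omega)
      obtain ⟨m', c1, c2, c3, c4, c5, c6⟩ := rho_spec (mask l)
      obtain ⟨d1, d2, d3⟩ := merge_spec m' (phi f (rest l)) 0 b1 (by rw [b2, c4, rest_len])
      have e0 : mask (1 :: l) = true :: mask l := rfl
      have e1 : rest (1 :: l) = rest l := rfl
      have e : phi (f + 1) (1 :: l) = 1 :: merge m' (phi f (rest l)) := by
        rw [phi, e0, e1, c1, merge]
      have e2 : mask (1 :: merge m' (phi f (rest l))) = true :: m' := congrArg (List.cons true) d1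
      have e3 : rest (1 :: merge m' (phi f (rest l))) = phi f (rest l) := d2
      have hg : IsRGF (1 :: merge m' (phi f (rest l))) := ⟨le_rfl, le_rfl, d3⟩
      rw [e]
      refine ⟨hg, ?_, ?_, ?_, ?_⟩
      · have := congrArg List.length d1
        simp only [mask, List.length_map] at this c3
        simp [this, c3]
      · rw [phi, e2, e3, c2, b3, ← e0, ← e1, merge_mask _ hp]
      · rw [copies1 _ (rgf_pos _ _ hg), copies2 _ hp, e2, e3, e0, e1, c5, b4]
      · rw [copies2 _ (rgf_pos _ _ hg), copies1 _ hp, e2, e3, e0, e1, c6, b5]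

theorem result :
    ∃ v w : List ℕ, IsRGF v ∧ IsRGF w ∧ v ≠ w ∧
      ∀ n k, (R n k v).Finite ∧ (R n k w).Finite ∧ (R n k v).ncard = (R n k w).ncard := by
  refine ⟨[1, 1, 2, 1], [1, 2, 1, 1], by simp [IsRGF, RGFfrom], by simp [IsRGF, RGFfrom],
    by simp, fun n k => ⟨R_fin _ _ _, R_fin _ _ _, ?_⟩⟩
  apply Set.ncard_congr (fun w _ => phi n w)
  · rintro w ⟨h1, h2, h3⟩
    obtain ⟨b1, b2, -, -, b5⟩ := phi_spec n w h2 h1.le
    exact ⟨b2.trans h1, b1, b5.trans h3⟩
  · rintro a b ⟨h1, h2, -⟩ ⟨h3, h4, -⟩ h
    rw [← (phi_spec n a h2 h1.le).2.2.1, ← (phi_spec n b h4 h3.le).2.2.1]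
    exact congrArg (phi n) h
  · rintro w ⟨h1, h2, h3⟩
    obtain ⟨b1, b2, b3, b4, -⟩ := phi_spec n w h2 h1.le
    exact ⟨phi n w, ⟨b2.trans h1, b1, b4.trans h3⟩, b3⟩

end Pool.Agent.Results.MP_2348bc_co.Example
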